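import Pool.Agent.N408.IB.Stm

/-!
# Project IB: `Av` depends on `q` with a small Lipschitz constant (helper711)
-/

open Real Set MeasureTheory

namespace N711.IB.DIF

open IB408

theorem b_val : b = 1 / 1000000 := rfl

theorem cube_diff {A A' d : ℝ} (h : |A - 1| ≤ 1 / 1000) (h' : |A' - 1| ≤ 1 / 1000)
    (hd : |A - A'| ≤ d) : |A ^ 3 - A' ^ 3| ≤ 301 / 100 * d := by
  have e : A ^ 3 - A' ^ 3 = (A - A') * (A ^ 2 + A * A' + A' ^ 2) := by ring
  rw [e, abs_mul]
  have h1 : |A ^ 2 + A * A' + A' ^ 2| ≤ 301 / 100 := by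
    obtain ⟨a1, a2⟩ := abs_le.1 h
    obtain ⟨a3, a4⟩ := abs_le.1 h'
    have b1 : 0 ≤ A := by linarith
    have b2 : 0 ≤ A' := by linarith
    rw [abs_of_nonneg (by positivity)]
    nlinarith
  calc _ ≤ d * (301 / 100) := mul_le_mul hd h1 (abs_nonneg _) ((abs_nonneg _).trans hd)
    _ = _ := by ring

theorem avg_diff {A B A' B' d : ℝ} (h1 : |A ^ 3 - A' ^ 3| ≤ d) (h2 : |B ^ 3 - B' ^ 3| ≤ d) :
    |(A ^ 3 + B ^ 3) / 2 - (A' ^ 3 + B' ^ 3) / 2| ≤ d := by
  obtain ⟨a1, a2⟩ := abs_le.1 h1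
  obtain ⟨a3, a4⟩ := abs_le.1 h2
  rw [abs_le]
  constructor <;> linarith

theorem quot_diff {C P P' d : ℝ} (hC : 0 ≤ C) (hC' : C ≤ 1) (h : 99 / 100 ≤ C + P)
    (h' : 99 / 100 ≤ C + P') (hd : |P - P'| ≤ d) :
    |(C / (C + P) - 1) - (C / (C + P') - 1)| ≤ 103 / 100 * d := by
  have p1 : 0 < C + P := by linarith
  have p2 : 0 < C + P' := by linarith
  have e : (C / (C + P) - 1) - (C / (C + P') - 1) = C * (P' - P) / ((C + P) * (C + P')) := by
    field_simp
    ring
  rw [e, abs_div, abs_mul, abs_of_nonneg hC, abs_of_pos (mul_pos p1 p2),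
    div_le_iff₀ (mul_pos p1 p2), abs_sub_comm]
  have h1 : (99 / 100 : ℝ) * (99 / 100) ≤ (C + P) * (C + P') :=
    mul_le_mul h h' (by norm_num) p1.le
  have h2 : C * |P - P'| ≤ 1 * d := mul_le_mul hC' hd (abs_nonneg _) zero_le_one
  have h3 : 0 ≤ d := (abs_nonneg _).trans hd
  nlinarith

theorem t (h1 : S_L1) (h3 : S_ODD1) (h4 : S_ODD2) (h5 : S_BAS1) (h6 : S_BAS2) :
    IB408.S_DIF := by
  intro q q' w w' η hq hq' hw0 hw1 hw0' hw1' hη x
  have hη0 : 0 ≤ η := (abs_nonneg _).trans (hη 0)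
  obtain ⟨⟨al1, al2, -, al4, -, -, -, c1⟩, -⟩ := h3
  have hb2 : b ^ 2 = 1 / 1000000000000 := by rw [b_val]; norm_num
  have hb3 : b ^ 3 = 1 / 1000000000000000000 := by rw [b_val]; norm_num
  have hb4 : b ^ 4 = 1 / 1000000000000000000000000 := by rw [b_val]; norm_num
  have al0 : 0 ≤ al := by rw [b_val] at al1; linarith
  -- caps
  have cap : ∀ σ : ℝ, σ = 1 ∨ σ = -1 → ∀ θ,
      |Leg (hc q σ) θ ^ 3 - Leg (hc q' σ) θ ^ 3| ≤ 602 / 100 * η := by
    intro σ hσ θ
    obtain ⟨k1, k2, -⟩ := (h5 q hq).1 σ hσ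
    obtain ⟨k1', k2', -⟩ := (h5 q' hq').1 σ hσ
    have m1 : ∀ ψ, |hc q σ ψ - 1| ≤ 1 / 1000 := fun ψ => (k2 ψ).trans (by rw [hb2]; norm_num)
    have m1' : ∀ ψ, |hc q' σ ψ - 1| ≤ 1 / 1000 := fun ψ => (k2' ψ).trans (by rw [hb2]; norm_num)
    have L := h1 (hc q σ) k1 fun ψ => (m1 ψ).trans (by norm_num)
    have L' := h1 (hc q' σ) k1' fun ψ => (m1' ψ).trans (by norm_num)
    have n1 := L.2.2.2.1 (1 / 1000) (by norm_num) m1 θ
    have n1' := L'.2.2.2.1 (1 / 1000) (by norm_num) m1' θ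
    have n2 := L.2.2.2.2 (hc q' σ) k1' (fun ψ => (m1' ψ).trans (by norm_num)) η (fun ψ => by
      unfold hc
      have := hη (sin ψ)
      rwa [show 1 + q (sin ψ) + σ * oc ψ - (1 + q' (sin ψ) + σ * oc ψ) =
        q (sin ψ) - q' (sin ψ) by ring]) θ
    exact (cube_diff n1 n1' n2).trans (by linarith)
  have pcap : ∀ θ, |Pcap q θ - Pcap q' θ| ≤ 602 / 100 * η := fun θ =>
    avg_diff (cap 1 (Or.inl rfl) θ) (cap (-1) (Or.inr rfl) θ)
  have pint : ∀ γ, |Pint q γ - Pint q' γ| ≤ 61 / 10 * b * η := by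
    intro γ
    have ii : ∀ q, Adm q → IntervalIntegrable (fun θ => (Pcap q θ - 1) * sin θ) volume
        (min |γ| al) al := fun q hq =>
      (((h5 q hq).2.1.sub continuous_const).mul continuous_sin).intervalIntegrable _ _
    unfold Pint
    rw [← intervalIntegral.integral_sub (ii q hq) (ii q' hq')]
    have key := intervalIntegral.norm_integral_le_of_norm_le_const (a := min |γ| al) (b := al)
      (f := fun θ => (Pcap q θ - 1) * sin θ - (Pcap q' θ - 1) * sin θ) (C := 602 / 100 * η)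
      (fun θ _ => by
        rw [Real.norm_eq_abs, ← sub_mul, sub_sub_sub_cancel_right, abs_mul]
        calc _ ≤ 602 / 100 * η * 1 := mul_le_mul (pcap θ) (abs_sin_le_one θ) (abs_nonneg _)
              (by linarith)
          _ = _ := mul_one _)
    rw [Real.norm_eq_abs] at key
    refine key.trans ?_
    have l1 : |al - min |γ| al| ≤ al := by
      have g1 : 0 ≤ min |γ| al := le_min (abs_nonneg _) al0
      have g2 : min |γ| al ≤ al := min_le_right _ _
      rw [abs_of_nonneg (by linarith)]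
      linarith
    calc 602 / 100 * η * |al - min |γ| al| ≤ 602 / 100 * η * (1001 / 1000 * b) :=
          mul_le_mul_of_nonneg_left (l1.trans al2) (by linarith)
      _ ≤ 61 / 10 * b * η := by
          have : 0 ≤ b * η := mul_nonneg (by rw [b_val]; norm_num) hη0
          nlinarith
  have stt : ∀ γ, |st q γ - st q' γ| ≤ 63 / 10 * b * η := by
    intro γ
    have g1 : 0 ≤ min |γ| al := le_min (abs_nonneg _) al0
    have g2 : min |γ| al ≤ al := min_le_right _ _
    have c2 : c ≤ cos (min |γ| al) := by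
      rw [← al4]
      refine cos_le_cos_of_nonneg_of_le_pi g1 ?_ g2
      refine al2.trans ?_
      rw [b_val]
      have := pi_gt_three
      linarith
    have p1 := abs_le.1 ((h5 q hq).2.2.2.2.2.2.2.2.2.1 γ)
    have p2 := abs_le.1 ((h5 q' hq').2.2.2.2.2.2.2.2.2.1 γ)
    rw [hb4] at p1 p2
    rw [hb2] at c1
    unfold st
    have hbη : 0 ≤ b * η := mul_nonneg (by rw [b_val]; norm_num) hη0
    refine (quot_diff (C := cos (min |γ| al)) ?_ (cos_le_one _) ?_ ?_ (pint γ)).trans ?_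
    · linarith
    · linarith
    · linarith
    · nlinarith
  have hbb : ∀ γ, |hb q w γ - hb q' w' γ| ≤ 63 / 10 * b * η + |w - w'| * b ^ 3 := by
    intro γ
    have o := (h4 w hw0 hw1).2.2.2.2.2.2.2 w' hw0' hw1' γ
    unfold hb
    rw [show 1 + st q γ + ob w γ - (1 + st q' γ + ob w' γ) =
      (st q γ - st q' γ) + (ob w γ - ob w' γ) by ring]
    exact (abs_add_le _ _).trans (add_le_add (stt γ) o)
  obtain ⟨a1, a2, -, -, -, -, -, -, a9, -⟩ := h6 q w hq hw0 hw1
  obtain ⟨a1', a2', -, -, -, -, -, -, a9', -⟩ := h6 q' w' hq' hw0' hw1'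
  have belt : ∀ β, |Leg (hb q w) β ^ 3 - Leg (hb q' w') β ^ 3| ≤
      602 / 100 * (63 / 10 * b * η + |w - w'| * b ^ 3) := by
    intro β
    have m1 : ∀ ψ, |hb q w ψ - 1| ≤ 1 / 1000 := fun ψ => (a2 ψ).trans (by rw [hb3]; norm_num)
    have m1' : ∀ ψ, |hb q' w' ψ - 1| ≤ 1 / 1000 := fun ψ => (a2' ψ).trans (by rw [hb3]; norm_num)
    have L := h1 (hb q w) a1 fun ψ => (m1 ψ).trans (by norm_num)
    have L' := h1 (hb q' w') a1' fun ψ => (m1' ψ).trans (by norm_num)
    have n1 := L.2.2.2.1 (1 / 1000) (by norm_num) m1 β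
    have n1' := L'.2.2.2.1 (1 / 1000) (by norm_num) m1' β
    have n2 := L.2.2.2.2 (hb q' w') a1' (fun ψ => (m1' ψ).trans (by norm_num)) _ hbb β
    exact (cube_diff n1 n1' n2).trans (by linarith)
  have ptt : ∀ t, |pt q w t - pt q' w' t| ≤ η / 100 + |w - w'| := by
    intro t
    unfold pt
    rw [sub_sub_sub_cancel_right]
    unfold Pbelt
    refine (avg_diff (belt _) (belt _)).trans ?_
    rw [hb3, b_val]
    have := abs_nonneg (w - w')
    nlinarith
  unfold Av
  have ii : ∀ q w, Continuous (pt q w) → IntervalIntegrable (fun τ => pt q w (τ * x)) volume 0 1 :=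
    fun q w h => (h.comp (continuous_id.mul continuous_const)).intervalIntegrable _ _
  rw [← intervalIntegral.integral_sub (ii q w a9) (ii q' w' a9')]
  have key := intervalIntegral.norm_integral_le_of_norm_le_const (a := 0) (b := 1)
    (f := fun τ => pt q w (τ * x) - pt q' w' (τ * x)) (C := η / 100 + |w - w'|)
    (fun τ _ => by
      rw [Real.norm_eq_abs]
      exact ptt _)
  rw [Real.norm_eq_abs] at key
  refine key.trans ?_
  rw [sub_zero, abs_one, mul_one]

end N711.IB.DIF
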